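import Pool.Agent.Y318.MH.Dyn
import Pool.Agent.TH80.OMS.SymDefs

set_option autoImplicit false

/-!
# Finitely many nonwandering points, all periodic: attractors
-/

namespace Pool.Agent.V5helper21.PR

open Set Filter Topology MeasureTheory
open Pool.Agent.TH80.OMS
open Pool.Agent.H728R2.FA (omegaLim FiniteAttractors)
open Pool.Agent.Y318.MH (omegaLim_map exists_omegaLim omegaLim_one finite_of_cover)

universe u

variable {X : Type u}

/-- the forward orbit -/
def orb (g : X → X) (p : X) : Set X := range fun j : ℕ => g^[j] p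

theorem mem_orb_self (g : X → X) (p : X) : p ∈ orb g p := ⟨0, rfl⟩

theorem orb_trans {g : X → X} {p q : X} (h : q ∈ orb g p) : orb g q ⊆ orb g p := by
  obtain ⟨j, rfl⟩ := h
  rintro _ ⟨k, rfl⟩
  exact ⟨k + j, Function.iterate_add_apply g k j p⟩

theorem per_mul {g : X → X} {p : X} {m : ℕ} (hp : g^[m] p = p) (k : ℕ) : g^[m * k] p = p := by
  rw [Function.iterate_mul]
  induction k with
  | zero => rfl
  | succ k ih => rw [Function.iterate_succ_apply', ih, hp]

theorem orb_symm {g : X → X} {p q : X} (hp : p ∈ Per g) (h : q ∈ orb g p) : p ∈ orb g q := by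
  obtain ⟨m, hm, hp⟩ := hp
  obtain ⟨j, rfl⟩ := h
  refine ⟨(m - 1) * j, ?_⟩
  show g^[(m - 1) * j] (g^[j] p) = p
  rw [← Function.iterate_add_apply]
  have h2 : (m - 1) * j + j = m * j := by
    obtain ⟨k, rfl⟩ : ∃ k, m = k + 1 := ⟨m - 1, by omega⟩
    simp [Nat.succ_mul]
  rw [h2, per_mul hp]

theorem orb_eq {g : X → X} {p q : X} (hp : p ∈ Per g) (h : q ∈ orb g p) : orb g q = orb g p :=
  Subset.antisymm (orb_trans h) (orb_trans (orb_symm hp h))

theorem orb_image {g : X → X} {p : X} (hp : p ∈ Per g) : g '' orb g p = orb g p := by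
  obtain ⟨m, hm, hp⟩ := hp
  apply Subset.antisymm
  · rintro _ ⟨_, ⟨j, rfl⟩, rfl⟩
    exact ⟨j + 1, Function.iterate_succ_apply' g j p⟩
  · rintro _ ⟨j, rfl⟩
    refine ⟨g^[m - 1 + j] p, ⟨m - 1 + j, rfl⟩, ?_⟩
    show g (g^[m - 1 + j] p) = g^[j] p
    rw [← Function.iterate_succ_apply' g]
    have : (m - 1 + j).succ = j + m := by omega
    rw [this, Function.iterate_add_apply, hp]

theorem orb_subset_omega [TopologicalSpace X] {g : X ≃ₜ X} {p : X} (hp : p ∈ Per g) :
    orb g p ⊆ Omega g := by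
  obtain ⟨m, hm, hp⟩ := hp
  rintro _ ⟨j, rfl⟩ W hW hj
  refine ⟨m, hm, g^[j] p, hj, ?_⟩
  have : g^[m] (g^[j] p) = g^[j] p := by
    rw [← Function.iterate_add_apply, add_comm, Function.iterate_add_apply, hp]
  rw [this]
  exact hj

theorem omegaLim_sub_omega [TopologicalSpace X] (g : X → X) (p : X) :
    omegaLim g p ⊆ Omega g := by
  intro y hy W hW hyW
  obtain ⟨a, -, ha⟩ := hy W (hW.mem_nhds hyW) 0
  obtain ⟨b, hb, hb'⟩ := hy W (hW.mem_nhds hyW) (a + 1)
  refine ⟨b - a, by omega, g^[a] p, ha, ?_⟩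
  rw [← Function.iterate_add_apply, Nat.sub_add_cancel (by omega)]
  exact hb'

/-- Finitely many nonwandering points, all periodic: every `ω`-limit set is a periodic orbit, and
there are finitely many attractors. -/
theorem main_metric [MetricSpace X] [CompactSpace X] (g : X ≃ₜ X) (hfin : (Omega g).Finite)
    (hper : Omega g ⊆ Per g) :
    (∃ (m : ℕ) (p : Fin m → X), (∀ i, p i ∈ Omega g) ∧ ∀ x, ∃ i, omegaLim g x = orb g (p i)) ∧
      ∀ (_ : MeasurableSpace X) (μ : Measure X), FiniteAttractors μ g := by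
  classical
  -- the periodic orbits
  set 𝒪 : Set (Set X) := (fun p => orb g p) '' Omega g with h𝒪
  have h𝒪f : 𝒪.Finite := hfin.image _
  let e := h𝒪f.toFinset.equivFin
  let M : Fin h𝒪f.toFinset.card → Set X := fun i => (e.symm i).1
  have hM : ∀ i, ∃ p ∈ Omega g, orb g p = M i := by
    intro i
    have := (e.symm i).2
    rw [Finite.mem_toFinset] at this
    exact this
  choose p hpΩ hpM using hM
  have hMinj : ∀ i j, M i = M j → i = j := by
    intro i j h
    have h1 : e.symm i = e.symm j := Subtype.ext h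
    exact e.symm.injective h1
  have hsurj : ∀ q ∈ Omega g, ∃ i, orb g q = M i := by
    intro q hq
    have h1 : orb g q ∈ h𝒪f.toFinset := by
      rw [Finite.mem_toFinset]
      exact ⟨q, hq, rfl⟩
    refine ⟨e ⟨orb g q, h1⟩, ?_⟩
    show orb g q = (e.symm (e ⟨orb g q, h1⟩)).1
    rw [e.symm_apply_apply]
  have hcl : ∀ i, IsClosed (M i) := by
    intro i
    rw [← hpM i]
    exact (hfin.subset (orb_subset_omega (hper (hpΩ i)))).isClosed
  have hinv : ∀ i, g '' M i = M i := by
    intro i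
    rw [← hpM i]
    exact orb_image (hper (hpΩ i))
  have hdis : ∀ i j, i ≠ j → Disjoint (M i) (M j) := by
    intro i j hij
    rw [Set.disjoint_left]
    intro q hqi hqj
    apply hij
    apply hMinj
    rw [← hpM i] at hqi ⊢
    rw [← hpM j] at hqj ⊢
    rw [← orb_eq (hper (hpΩ i)) hqi, ← orb_eq (hper (hpΩ j)) hqj]
  have htr : ∀ i, ∃ x ∈ M i, M i ⊆ closure (range fun n : ℕ => g^[n] x) := by
    intro i
    refine ⟨p i, ?_, ?_⟩
    · rw [← hpM i]
      exact mem_orb_self _ _
    · rw [← hpM i]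
      exact subset_closure
  have hcov : ∀ x, ∃ i, omegaLim g x ⊆ M i := by
    intro x
    refine omegaLim_one g M hcl hinv hdis x ?_
    intro y hy
    obtain ⟨i, hi⟩ := hsurj y (omegaLim_sub_omega g x hy)
    exact mem_iUnion.2 ⟨i, by rw [← hi]; exact mem_orb_self _ _⟩
  refine ⟨⟨_, p, hpΩ, fun x => ?_⟩, fun _ μ => finite_of_cover μ g M hinv htr hcov⟩
  obtain ⟨i, hi⟩ := hcov x
  refine ⟨i, ?_⟩
  rw [hpM i]
  refine Subset.antisymm hi ?_
  obtain ⟨y, -, hy⟩ := exists_omegaLim g x univ isClosed_univ (fun N => ⟨N, le_rfl, mem_univ _⟩)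
  have hyM := hi hy
  rw [← hpM i] at hyM ⊢
  rw [← orb_eq (hper (hpΩ i)) hyM]
  rintro _ ⟨j, rfl⟩
  show g^[j] y ∈ omegaLim g x
  induction j with
  | zero => exact hy
  | succ j ih => rw [Function.iterate_succ_apply']; exact omegaLim_map g ih

theorem main_top [TopologicalSpace X] [TopologicalSpace.MetrizableSpace X] [CompactSpace X]
    (g : X ≃ₜ X) (hfin : (Omega g).Finite) (hper : Omega g ⊆ Per g) :
    (∃ (m : ℕ) (p : Fin m → X), (∀ i, p i ∈ Omega g) ∧ ∀ x, ∃ i, omegaLim g x = orb g (p i)) ∧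
      ∀ (_ : MeasurableSpace X) (μ : Measure X), FiniteAttractors μ g := by
  letI : MetricSpace X := TopologicalSpace.metrizableSpaceMetric X
  exact main_metric g hfin hper

end Pool.Agent.V5helper21.PR
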